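import Pool.Agent.N972.JT.Ind

/-!
# Twists of analytic rank zero and ideal classes of order four

Let `E_d` be the twist, by the squarefree integer `d`, of `E : y² = x (x + 1) (x - 16)`, a curve of conductor
17 without complex multiplication. If `E_d(ℚ)` is finite and `Ш(E_d/ℚ)` has no element of order two (the
`2`-Selmer group is as small as it can be), then the analytic rank of `E_d` is `0`. Let `d < 0` with `17` not
split in `ℚ(√d)`; these are the negative `d` for which `E_d` has root number `+1`. We prove that this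
`2`-descent condition and the condition that the class group of `ℚ(√d)` has no element of order four are
asymptotically independent: with `η = ∏ (1 - 2^{-i}) = 0.2888...` and `θ = ∏ (1 - 2^{-(2i-1)}) = 0.4194...`,
all four combinations have the natural densities `η θ`, `η (1 - θ)`, `(1 - η) θ`, `(1 - η) (1 - θ)`, in both
usual orderings and in every residue class of `d` to every modulus.

Helper 972, on top of the work of the JT group (helpers 809, 877, 916, 963, 969, 975, 919, 856) and the theorems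
on the curve of conductor 17 (helpers 969, 970, 971, 972, 973, 974, 975, 99, 218, 402, 575, 809, 816, 844, 855,
871, 875, 877, 886, 890, 916, 919 and others).
-/

set_option autoImplicit false

open Finset Filter

namespace Pool.Agent.Results.MP_e587ed_nt.ClassGroupsConductor17

/-- the coefficient `a` of the twist `E_d : y² = x³ + a x + b` of `y² = x (x + 1) (x - 16)` by `d` -/
def A (d : ℤ) : ℤ := -91 * d ^ 2

/-- the coefficient `b` of the twist `E_d : y² = x³ + a x + b` of `y² = x (x + 1) (x - 16)` by `d` -/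
def B (d : ℤ) : ℤ := -330 * d ^ 3

/-- the curve `E_d` over `ℚ` -/
def E (d : ℤ) : WeierstrassCurve ℚ :=
  { a₁ := 0, a₂ := 0, a₃ := 0, a₄ := (A d : ℚ), a₆ := (B d : ℚ) }

/-- `E_d(ℚ)` is finite and `Ш(E_d/ℚ)` has no element of order two -/
def RankZeroShaTwo (d : ℤ) : Prop :=
  Finite (E d).toAffine.Point ∧ ∀ x : Pool.Agent.TH841.SH.D.Sha (E d), 2 • x = 0 → x = 0

/-- the class group of the quadratic field `ℚ(√d)` has no element of order four -/
def NoOrderFour (d : ℤ) : Prop :=
  ∀ (K : Type) [Field K] [NumberField K], Module.finrank ℚ K = 2 →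
    (∃ s : K, s ^ 2 = (d : K)) →
    ∀ c : ClassGroup (NumberField.RingOfIntegers K), orderOf c ≠ 4

/-- the `d` for which the twist `E_d` has root number `+1`: `d < 0` and `17` is not split in `ℚ(√d)`, or
`d > 0` and `17` is split in `ℚ(√d)` -/
def RootPlus (d : ℤ) : Prop := (0 < d ∧ jacobiSym d 17 = 1) ∨ (d < 0 ∧ jacobiSym d 17 ≠ 1)

/-- `d < 0` and `17` is not split in `ℚ(√d)` -/
def NegPlus (d : ℤ) : Prop := d < 0 ∧ jacobiSym d 17 ≠ 1

/-- the conclusion of the frozen statement `S17291` for `y² = x³ + a x + b`, together with the fact that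
the order of vanishing and the rank are both `0` -/
def BSDRankZero (a b : ℤ) : Prop :=
  4 * a ^ 3 + 27 * b ^ 2 ≠ 0 ∧
    ∃ F : ℂ → ℂ, Differentiable ℂ F ∧
      (∀ s : ℂ, (3 : ℝ) / 2 < s.re →
        HasProd
          (fun p : ℕ => open Classical in
            if p.Prime ∧ ¬ ((p : ℤ) ∣ 2 * (-4 * a ^ 3 - 27 * b ^ 2)) then
              (1 - ((p : ℂ) - (Nat.card {q : ZMod p × ZMod p //
                  q.2 ^ 2 = q.1 ^ 3 + (a : ZMod p) * q.1 + (b : ZMod p)} : ℂ))
                  * (p : ℂ) ^ (-s) + (p : ℂ) ^ (1 - 2 * s))⁻¹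
            else 1)
          (F s)) ∧
      analyticOrderAt F 1 =
        ((Module.finrank ℤ
          (WeierstrassCurve.Affine.Point
            (WeierstrassCurve.toAffine
              ({ a₁ := 0, a₂ := 0, a₃ := 0, a₄ := (a : ℚ), a₆ := (b : ℚ) } :
                WeierstrassCurve ℚ))) : ℕ) : ℕ∞) ∧
      Module.finrank ℤ
        (WeierstrassCurve.Affine.Point
          (WeierstrassCurve.toAffine
            ({ a₁ := 0, a₂ := 0, a₃ := 0, a₄ := (a : ℚ), a₆ := (b : ℚ) } :
              WeierstrassCurve ℚ))) = 0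

open Classical in
/-- the number of the squarefree integers `d`, `|d| ≤ X`, with the property `P` -/
noncomputable def count (P : ℤ → Prop) (X : ℕ) : ℕ :=
  ((Icc (-(X : ℤ)) X).filter fun d => Squarefree d ∧ P d).card

/-- `D` is a fundamental discriminant (`1` included) -/
def Fund (D : ℤ) : Prop := (Squarefree D ∧ D % 4 = 1) ∨
  ∃ m : ℤ, D = 4 * m ∧ Squarefree m ∧ (m % 4 = 2 ∨ m % 4 = 3)

/-- the squarefree integer `d` with `ℚ(√d) = ℚ(√D)` -/
def core (D : ℤ) : ℤ := if D % 2 = 1 then D else D / 4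

open Classical in
/-- the number of the fundamental discriminants `D`, `|D| ≤ X`, for which `core D` has the
property `P` -/
noncomputable def countDisc (P : ℤ → Prop) (X : ℕ) : ℕ :=
  ((Icc (-(X : ℤ)) X).filter fun D => Fund D ∧ P (core D)).card

/-- `x` if `a` is true and `1 - x` if `a` is false -/
noncomputable def prob (x : ℝ) (a : Bool) : ℝ := if a = true then x else 1 - x

/-- the combination `(a, b)` of the two conditions: `NoOrderFour d` holds exactly if `a` is true and
`RankZeroShaTwo d` holds exactly if `b` is true -/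
def Pattern (a b : Bool) (d : ℤ) : Prop :=
  (NoOrderFour d ↔ a = true) ∧ (RankZeroShaTwo d ↔ b = true)

open Pool.Agent.N919.BS (NS NF Rt17)
open Pool.Agent.N972.JT (PN)
open Pool.Agent.N972.JT.Ind (NO4 R17 r17_iff)

theorem rank_eq (d : ℤ) : RankZeroShaTwo d ↔ R17 d := by
  unfold RankZeroShaTwo R17 Pool.Agent.N875.X15.Fin2
  have e : E d = Pool.Agent.N875.P17.WS d := rfl
  rw [← e]
  refine and_congr Iff.rfl (forall_congr' fun x => ?_)
  rw [two_nsmul]

theorem neg_iff (d : ℤ) : NegPlus d ↔ PN d := by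
  unfold NegPlus Pool.Agent.N972.JT.PN Pool.Agent.N919.BS.Rt17
  constructor
  · rintro ⟨h1, h2⟩
    exact ⟨h1, Or.inr ⟨h1, h2⟩⟩
  · rintro ⟨h1, h2 | h2⟩
    · omega
    · exact ⟨h1, h2.2⟩

theorem pat_iff (a b : Bool) (d : ℤ) :
    Pattern a b d ↔ ((NO4 d ↔ a = true) ∧ (R17 d ↔ b = true)) := by
  unfold Pattern
  rw [rank_eq]
  exact Iff.rfl

theorem count_eq (P Q : ℤ → Prop) (h : ∀ d, P d ↔ Q d) : count P = NS Q := by
  classical
  funext X
  unfold count NS
  refine congrArg Finset.card (Finset.ext fun n => ?_)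
  refine (Finset.mem_filter).trans (Iff.trans ?_ (Finset.mem_filter).symm)
  exact and_congr_right fun _ => and_congr_right fun hs => h n

theorem countDisc_eq (P Q : ℤ → Prop) (h : ∀ d, P d ↔ Q d) : countDisc P = NF Q := by
  classical
  funext X
  unfold countDisc NF
  refine congrArg Finset.card (Finset.ext fun n => ?_)
  refine (Finset.mem_filter).trans (Iff.trans ?_ (Finset.mem_filter).symm)
  exact and_congr_right fun _ => and_congr_right fun hs => h _

theorem bsd_of_rank {a b : ℤ} (h0 : 4 * a ^ 3 + 27 * b ^ 2 ≠ 0)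
    (h : Pool.Agent.Y687.RankBSD a b) : BSDRankZero a b := by
  obtain ⟨F, h1, h2, h3, h4⟩ := h
  exact ⟨h0, F, h1, h2, by rw [h3, h4]; rfl, h4⟩

theorem hasProd_eta : HasProd (fun i : ℕ => 1 - (1 / 2 : ℝ) ^ (i + 1)) Pool.Agent.N916.GB.eta := by
  have h : Multipliable fun i : ℕ => 1 + -((1 / 2 : ℝ) ^ (i + 1)) := by
    apply multipliable_one_add_of_summable
    have h1 : Summable fun i : ℕ => (1 / 2 : ℝ) ^ i * (1 / 2) :=
      (summable_geometric_of_lt_one (by norm_num) (by norm_num)).mul_right _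
    refine h1.congr fun i => ?_
    rw [norm_neg, Real.norm_of_nonneg (by positivity), pow_succ]
  have h3 := h.hasProd
  have e : (fun i : ℕ => 1 + -((1 / 2 : ℝ) ^ (i + 1))) = fun i : ℕ => 1 - (1 / 2 : ℝ) ^ (i + 1) := by
    funext i
    ring
  rw [e] at h3
  exact h3

theorem hasProd_c2 : HasProd (fun i : ℕ => 1 - (1 / 2 : ℝ) ^ (2 * i + 1)) Pool.Agent.Y703.CQ.c2 := by
  have h : Multipliable fun i : ℕ => 1 + -((1 / 2 : ℝ) ^ (2 * i + 1)) := by
    apply multipliable_one_add_of_summable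
    have h1 : Summable fun i : ℕ => (1 / 4 : ℝ) ^ i * (1 / 2) :=
      (summable_geometric_of_lt_one (by norm_num) (by norm_num)).mul_right _
    refine h1.congr fun i => ?_
    rw [norm_neg, Real.norm_of_nonneg (by positivity), pow_succ, pow_mul]
    norm_num
  have h3 := h.hasProd
  have e : (fun i : ℕ => 1 + -((1 / 2 : ℝ) ^ (2 * i + 1))) =
      fun i : ℕ => 1 - (1 / 2 : ℝ) ^ (2 * i + 1) := by
    funext i
    ring
  rw [e] at h3
  exact h3

theorem result :
    (∀ d : ℤ, Squarefree d → RankZeroShaTwo d → RootPlus d ∧ BSDRankZero (A d) (B d)) ∧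
    ∃ η θ : ℝ, HasProd (fun i : ℕ => 1 - (1 / 2 : ℝ) ^ (i + 1)) η ∧ 0.2887 < η ∧ η < 0.2889 ∧
      HasProd (fun i : ℕ => 1 - (1 / 2 : ℝ) ^ (2 * i + 1)) θ ∧ 0.4194 < θ ∧ θ < 0.4195 ∧
      ∀ a b : Bool,
        Tendsto (fun X : ℕ => (count (fun d => NegPlus d ∧ Pattern a b d) X : ℝ) /
          (count NegPlus X : ℝ)) atTop (nhds (prob η a * prob θ b)) ∧
        Tendsto (fun X : ℕ => (countDisc (fun d => NegPlus d ∧ Pattern a b d) X : ℝ) /
          (countDisc NegPlus X : ℝ)) atTop (nhds (prob η a * prob θ b)) ∧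
        Tendsto (fun X : ℕ => (count (fun d => NegPlus d ∧ Pattern a b d) X : ℝ) /
          (count (fun _ => True) X : ℝ)) atTop (nhds (19 / 72 * (prob η a * prob θ b))) ∧
        Tendsto (fun X : ℕ => (countDisc (fun d => NegPlus d ∧ Pattern a b d) X : ℝ) /
          (countDisc (fun _ => True) X : ℝ)) atTop (nhds (19 / 72 * (prob η a * prob θ b))) ∧
        ∀ (m : ℕ) (C : Set ℤ), 0 < m →
          Tendsto (fun X : ℕ =>
            ((count (fun d => (NegPlus d ∧ d % (m : ℤ) ∈ C) ∧ Pattern a b d) X : ℝ) -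
              prob η a * prob θ b * (count (fun d => NegPlus d ∧ d % (m : ℤ) ∈ C) X : ℝ)) / (X : ℝ))
            atTop (nhds 0) ∧
          Tendsto (fun X : ℕ =>
            ((countDisc (fun d => (NegPlus d ∧ d % (m : ℤ) ∈ C) ∧ Pattern a b d) X : ℝ) -
              prob η a * prob θ b * (countDisc (fun d => NegPlus d ∧ d % (m : ℤ) ∈ C) X : ℝ)) /
                (X : ℝ)) atTop (nhds 0) := by
  obtain ⟨-, -, -, hb1, hb2⟩ := Pool.Agent.Y948.CQ.t_C2
  refine ⟨fun d hs hR => ?_, Pool.Agent.N916.GB.eta, Pool.Agent.Y703.CQ.c2, hasProd_eta,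
    Pool.Agent.N916.GB.eta_bounds.1, Pool.Agent.N916.GB.eta_bounds.2, hasProd_c2, hb1, hb2, ?_⟩
  · have h1 := (rank_eq d).1 hR
    refine ⟨((r17_iff hs).1 h1).1, bsd_of_rank ?_ (Pool.Agent.N809.P17.bsd_all hs h1)⟩
    have e : 4 * (A d) ^ 3 + 27 * (B d) ^ 2 = -73984 * d ^ 6 := by
      unfold A B
      ring
    rw [e]
    exact mul_ne_zero (by norm_num) (pow_ne_zero 6 hs.ne_zero)
  · intro a b
    have hp : prob Pool.Agent.N916.GB.eta a * prob Pool.Agent.Y703.CQ.c2 b =
        Pool.Agent.N972.JT.Ind.pr Pool.Agent.N916.GB.eta a *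
          Pool.Agent.N972.JT.Ind.pr Pool.Agent.Y703.CQ.c2 b := rfl
    rw [hp]
    have hL := Pool.Agent.N972.JT.Ind.law_all a b
    obtain ⟨n1, n2⟩ := Pool.Agent.N963.JT.dens_NS hL (by norm_num) Pool.Agent.N972.JT.dens_PN_NS
    obtain ⟨f1, f2⟩ := Pool.Agent.N963.JT.dens_NF hL (by norm_num) Pool.Agent.N972.JT.dens_PN_NF
    have t1 := count_eq (fun _ => True) (fun _ => True) fun d => Iff.rfl
    have t2 := countDisc_eq (fun _ => True) (fun _ => True) fun d => Iff.rfl
    have p1 := count_eq NegPlus PN neg_iff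
    have p2 := countDisc_eq NegPlus PN neg_iff
    have q1 := count_eq (fun d => NegPlus d ∧ Pattern a b d)
      (fun d => PN d ∧ ((NO4 d ↔ a = true) ∧ (R17 d ↔ b = true))) fun d =>
        and_congr (neg_iff d) (pat_iff a b d)
    have q2 := countDisc_eq (fun d => NegPlus d ∧ Pattern a b d)
      (fun d => PN d ∧ ((NO4 d ↔ a = true) ∧ (R17 d ↔ b = true))) fun d =>
        and_congr (neg_iff d) (pat_iff a b d)
    rw [q1, q2, p1, p2, t1, t2]
    refine ⟨n2, f2, ?_, ?_, ?_⟩
    · rw [mul_comm (19 / 72 : ℝ)]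
      exact n1
    · rw [mul_comm (19 / 72 : ℝ)]
      exact f1
    · intro m C hm
      have hM := Pool.Agent.N972.JT.Ind.law hm C a b
      rw [count_eq (fun d => (NegPlus d ∧ d % (m : ℤ) ∈ C) ∧ Pattern a b d)
          (fun d => (PN d ∧ d % (m : ℤ) ∈ C) ∧ ((NO4 d ↔ a = true) ∧ (R17 d ↔ b = true))) fun d =>
            and_congr (and_congr (neg_iff d) Iff.rfl) (pat_iff a b d),
        countDisc_eq (fun d => (NegPlus d ∧ d % (m : ℤ) ∈ C) ∧ Pattern a b d)
          (fun d => (PN d ∧ d % (m : ℤ) ∈ C) ∧ ((NO4 d ↔ a = true) ∧ (R17 d ↔ b = true))) fun d =>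
            and_congr (and_congr (neg_iff d) Iff.rfl) (pat_iff a b d),
        count_eq (fun d => NegPlus d ∧ d % (m : ℤ) ∈ C) (fun d => PN d ∧ d % (m : ℤ) ∈ C) fun d =>
          and_congr (neg_iff d) Iff.rfl,
        countDisc_eq (fun d => NegPlus d ∧ d % (m : ℤ) ∈ C) (fun d => PN d ∧ d % (m : ℤ) ∈ C)
          fun d => and_congr (neg_iff d) Iff.rfl]
      exact ⟨Pool.Agent.N963.JT.cls_NS hM, Pool.Agent.N963.JT.cls_NF hM⟩

end Pool.Agent.Results.MP_e587ed_nt.ClassGroupsConductor17
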